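import Pool.Agent.Lib.MP_b1a3a4_al.MVS.HO.Iface

/-!
# Project MVS, part II, module CURVEXT (10.18) (helper19)
-/

set_option linter.all false

namespace Pool.Agent.Lib.MP_b1a3a4_al.MVS.HO.H19

open Pool.Agent.Lib.MP_b1a3a4_al.MVS Pool.Agent.Lib.MP_b1a3a4_al.MVS.HO

lemma sqrt_lip {M : ℝ} (s τ : ℝ) :
    Real.sqrt ((s + τ) ^ 2 + M ^ 2) ≤ Real.sqrt (s ^ 2 + M ^ 2) + |τ| := by
  have h1 : |s| ≤ Real.sqrt (s ^ 2 + M ^ 2) := by
    apply Real.le_sqrt_of_sq_le
    rw [sq_abs]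
    nlinarith [sq_nonneg M]
  have h0 : 0 ≤ Real.sqrt (s ^ 2 + M ^ 2) := Real.sqrt_nonneg _
  have h2 : Real.sqrt (s ^ 2 + M ^ 2) ^ 2 = s ^ 2 + M ^ 2 := Real.sq_sqrt (by positivity)
  rw [Real.sqrt_le_iff]
  refine ⟨by positivity, ?_⟩
  have h3 : s * τ ≤ |s| * |τ| := by rw [← abs_mul]; exact le_abs_self _
  have h4 : |s| * |τ| ≤ Real.sqrt (s ^ 2 + M ^ 2) * |τ| := mul_le_mul_of_nonneg_right h1 (abs_nonneg τ)
  have h5 : |τ| ^ 2 = τ ^ 2 := sq_abs τ
  nlinarith

lemma curv_lip {G : Type} [Group G] (χ ψ : Chr G) {c₁ M : ℝ} (hc : 0 ≤ c₁) (v f : G) :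
    curv χ ψ c₁ M v - (|val χ f| + c₁ * |val ψ f|) ≤ curv χ ψ c₁ M (v * f) := by
  unfold curv
  rw [val_mul, val_mul]
  have h1 := sqrt_lip (M := M) (val ψ v) (val ψ f)
  have h2 := mul_le_mul_of_nonneg_left h1 hc
  have h3 := neg_abs_le (val χ f)
  nlinarith

lemma curv_mul {G : Type} [Group G] (χ ψ : Chr G) (c₁ M : ℝ) (v b : G) (hb : val ψ b = 0) :
    curv χ ψ c₁ M (v * b) = curv χ ψ c₁ M v + val χ b := by
  unfold curv
  rw [val_mul, val_mul, hb, add_zero]
  ring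

lemma exists_bound {G : Type} [Group G] (χ ψ : Chr G) {c₁ : ℝ} (hc : 0 ≤ c₁) {K : Set G} (hK : K.Finite) :
    ∃ C : ℝ, 0 ≤ C ∧ ∀ f ∈ K, |val χ f| + c₁ * |val ψ f| ≤ C := by
  obtain ⟨C, hC⟩ := (hK.image (fun f => |val χ f| + c₁ * |val ψ f|)).bddAbove
  refine ⟨max C 0, le_max_right _ _, fun f hf => ?_⟩
  exact (hC (Set.mem_image_of_mem _ hf)).trans (le_max_left _ _)

theorem curvext (h1 : Curv1Statement) (h2 : Curv2Statement) (h3 : GextStatement)
    (h4 : CarrStatement) : CurvExtStatement := by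
  classical
  intro G _ E hE χ ψ c₁ D hc₁ hD ⟨b₀, hb₀, hb₀'⟩ hHS
  -- the direction b
  obtain ⟨N, hN⟩ := exists_nat_gt ((2 * D + 3) / val χ b₀)
  set b : G := b₀ ^ N with hb
  have hψb : val ψ b = 0 := by rw [hb, val_pow, hb₀, mul_zero]
  have hχb : 2 * D + 3 ≤ val χ b := by
    rw [hb, val_pow]
    rw [div_lt_iff₀ hb₀'] at hN
    exact hN.le
  -- the paths
  have hBfin : ((fun x => x * b) '' E).Finite := hE.fin.image _
  obtain ⟨P, M₁, hP, hM₁, hP1⟩ := h1 G E hE χ ψ c₁ D hc₁ hD hHS _ hBfin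
  set P' : Set (List G) := {p ∈ P | ∀ x ∈ p, x ∈ E} with hP'
  have hP'fin : P'.Finite := hP.subset (fun p hp => hp.1)
  set L : Set (G × List G × List G) :=
    {ℓ ∈ (fun q : List G × List G × List G => (b, q.1 ++ q.2.1, q.2.2)) '' (P' ×ˢ P' ×ˢ P') |
      ℓ.2.1.prod = ℓ.2.2.prod} with hL
  have hLfin : L.Finite :=
    ((hP'fin.prod (hP'fin.prod hP'fin)).image _).subset (fun ℓ hℓ => hℓ.1)
  have hLok : ∀ ℓ ∈ L, (∀ x ∈ ℓ.2.1, x ∈ E) ∧ (∀ x ∈ ℓ.2.2, x ∈ E) ∧ ℓ.2.1.prod = ℓ.2.2.prod := by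
    rintro ℓ ⟨⟨⟨p, q, r⟩, ⟨hp, hq, hr⟩, rfl⟩, hprod⟩
    refine ⟨?_, hr.2, hprod⟩
    intro x hx
    rcases List.mem_append.1 hx with hx | hx
    · exact hp.2 x hx
    · exact hq.2 x hx
  obtain ⟨M₂, hM₂, hL2⟩ := h2 G E hE χ ψ c₁ D hc₁ hD hHS L hLfin hLok
  set M : ℝ := max M₁ M₂ with hM
  have hMpos : 0 < M := lt_max_of_lt_left hM₁
  -- the word for b
  obtain ⟨wb, hwb, hwbp⟩ := hE.conn b
  -- carriers for (iii)
  have hcar : ∀ q : List G × G, ∃ F : Set G, F.Finite ∧ (q.1 ∈ P' → q.2 ∈ E →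
      (wb ++ q.1).prod = (q.2 :: wb).prod → SameHol E F 1 (wb ++ q.1) (q.2 :: wb)) := by
    intro q
    by_cases hq : q.1 ∈ P' ∧ q.2 ∈ E ∧ (wb ++ q.1).prod = (q.2 :: wb).prod
    · have hs : SameHol E Set.univ 1 (wb ++ q.1) (q.2 :: wb) := by
        apply hE.sameHol
        · intro x hx
          rcases List.mem_append.1 hx with hx | hx
          · exact hwb x hx
          · exact hq.1.2 x hx
        · intro x hx
          rcases List.mem_cons.1 hx with rfl | hx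
          · exact hq.2.1
          · exact hwb x hx
        · exact hq.2.2
      obtain ⟨F, hF, -, hF2⟩ := h4 G E Set.univ 1 _ _ hs
      exact ⟨F, hF, fun _ _ _ => hF2⟩
    · refine ⟨∅, Set.finite_empty, fun a1 a2 a3 => absurd ⟨a1, a2, a3⟩ hq⟩
  choose F hFfin hFsame using hcar
  set K : Set G := (⋃ q ∈ P' ×ˢ E, F q) ∪ {g | ∃ u, u <+: wb ∧ g = u.prod} with hK
  have hKfin : K.Finite := by
    apply Set.Finite.union
    · exact Set.Finite.biUnion (hP'fin.prod hE.fin) fun q _ => hFfin q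
    · have : {g | ∃ u, u <+: wb ∧ g = u.prod} = List.prod '' {u | u <+: wb} := by
        ext g
        constructor
        · rintro ⟨u, hu, rfl⟩
          exact ⟨u, hu, rfl⟩
        · rintro ⟨u, hu, rfl⟩
          exact ⟨u, hu, rfl⟩
      rw [this]
      apply Set.Finite.image
      have h5 : {u | u <+: wb} = {u | u ∈ wb.inits} := by
        ext u
        simp
      rw [h5]
      exact List.finite_toSet _
  obtain ⟨C, hC, hCb⟩ := exists_bound χ ψ hc₁.le hKfin
  -- choice of the paths p v x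
  have hp : ∀ v x : G, ∃ p : List G, x ∈ E → (p ∈ P' ∧ b * p.prod = x * b ∧
      InPath E (up (curv χ ψ c₁ M) (min (curv χ ψ c₁ M (v * b)) (curv χ ψ c₁ M (v * (x * b))) - D - 1))
        (v * b) p) := by
    intro v x
    by_cases hx : x ∈ E
    · obtain ⟨p, hpP, hpp, hpi⟩ := hP1 M (le_max_left _ _) v b ⟨1, hE.one, one_mul b⟩ (x * b) ⟨x, hx, rfl⟩
      exact ⟨p, fun _ => ⟨⟨hpP, hpi.letters⟩, hpp, hpi⟩⟩
    · exact ⟨[], fun h => absurd h hx⟩
  choose p hpE using hp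
  have hmul : ∀ v, curv χ ψ c₁ M (v * b) = curv χ ψ c₁ M v + val χ b := fun v =>
    curv_mul χ ψ c₁ M v b hψb
  have hpprod : ∀ v, ∀ x ∈ E, (p v x).prod = b⁻¹ * x * b := by
    intro v x hx
    have := (hpE v x hx).2.1
    rw [mul_assoc, ← this, inv_mul_cancel_left]
  have hpin : ∀ v, ∀ x ∈ E, InPath E (up (curv χ ψ c₁ M)
      (min (curv χ ψ c₁ M v) (curv χ ψ c₁ M (v * x)) + val χ b - D - 1)) (v * b) (p v x) := by
    intro v x hx
    have h5 := (hpE v x hx).2.2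
    rw [← mul_assoc, hmul, hmul, min_add_add_right] at h5
    exact h5
  refine ⟨M, C, hMpos, hC, fun h => ?_⟩
  refine h3 G E hE (curv χ ψ c₁ M) (fun _ => b) (fun _ => wb) p 1 C h one_pos hC ?_ ?_ ?_ ?_ h le_rfl
  · intro v
    refine ⟨hwbp, inPath_iff.2 ⟨hwb, fun u hu => ?_⟩⟩
    rw [mem_up]
    have h5 := curv_lip χ ψ (M := M) hc₁.le v u.prod
    have h6 := hCb u.prod (Or.inr ⟨u, hu, rfl⟩)
    linarith
  · intro v x hx
    refine ⟨hpprod v x hx, (hpin v x hx).mono le_rfl (up_mono ?_)⟩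
    refine (min_le_right _ _).trans ?_
    linarith
  · intro v x hx y hy hxy
    set m : ℝ := min (min (curv χ ψ c₁ M v) (curv χ ψ c₁ M (v * x))) (curv χ ψ c₁ M (v * (x * y))) with hm
    have hin1 : InPath E (up (curv χ ψ c₁ M) (m + val χ b - D - 1)) (v * b) (p v x ++ p (v * x) y) := by
      rw [inPath_append]
      constructor
      · refine (hpin v x hx).mono le_rfl (up_mono ?_)
        have : m ≤ min (curv χ ψ c₁ M v) (curv χ ψ c₁ M (v * x)) := min_le_left _ _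
        linarith
      · have h5 := hpin (v * x) y hy
        have h6 : v * b * (p v x).prod = v * x * b := by
          rw [hpprod v x hx]; group
        rw [h6]
        refine h5.mono le_rfl (up_mono ?_)
        have h7 : m ≤ min (curv χ ψ c₁ M (v * x)) (curv χ ψ c₁ M (v * x * y)) := by
          apply le_min
          · exact (min_le_left _ _).trans (min_le_right _ _)
          · rw [mul_assoc]; exact min_le_right _ _
        linarith
    have hin2 : InPath E (up (curv χ ψ c₁ M) (m + val χ b - D - 1)) (v * b) (p v (x * y)) := by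
      refine (hpin v (x * y) hxy).mono le_rfl (up_mono ?_)
      have h7 : m ≤ min (curv χ ψ c₁ M v) (curv χ ψ c₁ M (v * (x * y))) := by
        apply le_min
        · exact (min_le_left _ _).trans (min_le_left _ _)
        · exact min_le_right _ _
      linarith
    have hℓ : ((b, p v x ++ p (v * x) y, p v (x * y)) : G × List G × List G) ∈ L := by
      refine ⟨⟨(p v x, p (v * x) y, p v (x * y)), ⟨(hpE v x hx).1, (hpE (v * x) y hy).1,
        (hpE v (x * y) hxy).1⟩, rfl⟩, ?_⟩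
      change (p v x ++ p (v * x) y).prod = (p v (x * y)).prod
      rw [List.prod_append, hpprod v x hx, hpprod (v * x) y hy, hpprod v (x * y) hxy]
      group
    have h8 := hL2 M (le_max_right _ _) v _ hℓ (m + val χ b - D - 1) hin1 hin2
    refine h8.mono le_rfl (up_mono ?_)
    refine (min_le_right _ _).trans ?_
    linarith
  · intro v x hx
    have hpr : (wb ++ p v x).prod = (x :: wb).prod := by
      rw [List.prod_append, List.prod_cons, hwbp, hpprod v x hx]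
      group
    have h5 := hFsame (p v x, x) (hpE v x hx).1 hx hpr
    have h6 := h5.translate v (Z' := up (curv χ ψ c₁ M) (curv χ ψ c₁ M v - C)) (by
      intro f hf
      rw [mem_up]
      have h7 := curv_lip χ ψ (M := M) hc₁.le v f
      have h8 := hCb f (Or.inl (Set.mem_biUnion (x := (p v x, x)) ⟨(hpE v x hx).1, hx⟩ hf))
      linarith)
    rw [mul_one] at h6
    exact h6

end Pool.Agent.Lib.MP_b1a3a4_al.MVS.HO.H19
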